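import Mathlib
import Pool.Agent.Helper35.HG.StB
import Pool.Agent.Helper33.HSF.M_GCH

/-!
Project HG (MP_925021_gt), module CPN: the values form a compact set and can be continued in time.
-/

set_option autoImplicit false

namespace Helper27.HG

open Helper35.HG Helper35.HC Helper35.HSF Helper35.MS Helper35.PI Helper35.PI2 Helper32.CL
open scoped ContDiff Manifold Topology ENNReal BigOperators
open MeasureTheory Set Filter

section Abs

variable {n N : ℕ}

private lemma sum2b {V : Type} [AddCommGroup V] [Module ℝ V] (J : Matrix (Fin n) (Fin n) ℝ)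
    (U W : Fin n → ℝ) (X Y : Fin n → Fin n → V)
    (h : ∀ i j, X i j = ∑ a, ∑ b, (J i a * J j b) • Y a b) :
    ∑ i, ∑ j, (U i * W j) • X i j
      = ∑ a, ∑ b, (Matrix.vecMul U J a * Matrix.vecMul W J b) • Y a b := by
  simp_rw [h]
  have h1 := Helper67.PI.contr (Matrix.vecMulVec U W) J Y
  simp only [Matrix.vecMulVec_apply] at h1
  rw [h1, Matrix.mul_vecMulVec, Matrix.vecMulVec_mul]
  simp only [Matrix.vecMulVec_apply, Matrix.mulVec_transpose]

/-- coefficients of unit vectors in converging frames converge along an ultrafilter -/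
private lemma coef {ι : Type} (U : Ultrafilter ι) (X : ι → Fin n → EE N) (X₀ : Fin n → EE N)
    (hX : ∀ a, Tendsto (fun i => X i a) U (𝓝 (X₀ a))) (hLI : LinearIndependent ℝ X₀)
    (c : ι → Fin n → ℝ) (hc : ∀ᶠ i in (U : Filter ι), ‖∑ a, c i a • X i a‖ = 1) :
    ∃ c₀ : Fin n → ℝ, Tendsto c U (𝓝 c₀) := by
  set f : (Fin n → ℝ) →ₗ[ℝ] EE N := Fintype.linearCombination ℝ X₀ with hf
  have hfa : ∀ v, f v = ∑ a, v a • X₀ a := fun v => by
    rw [hf, Fintype.linearCombination_apply]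
  have hker : LinearMap.ker f = ⊥ := by
    rw [LinearMap.ker_eq_bot']
    intro v hv
    rw [hfa] at hv
    funext i
    exact Fintype.linearIndependent_iff.1 hLI v hv i
  obtain ⟨K, hK, hA⟩ := f.exists_antilipschitzWith hker
  have hK' : (0 : ℝ) < K := by exact_mod_cast hK
  have hlow : ∀ v, ‖v‖ ≤ K * ‖f v‖ := fun v => by
    have := hA.le_mul_dist v 0
    rwa [map_zero, dist_zero_right, dist_zero_right] at this
  have hS : Tendsto (fun i => ∑ a, ‖X i a - X₀ a‖) (U : Filter ι) (𝓝 0) := by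
    have h1 : Tendsto (fun i => ∑ a, ‖X i a - X₀ a‖) (U : Filter ι) (𝓝 (∑ a : Fin n, (0 : ℝ))) := by
      refine tendsto_finsetSum _ fun a _ => ?_
      have h2 := ((hX a).sub_const (X₀ a)).norm
      rwa [sub_self, norm_zero] at h2
    rwa [Finset.sum_const_zero] at h1
  have hS' : ∀ᶠ i in (U : Filter ι), ∑ a, ‖X i a - X₀ a‖ < 1 / (2 * K) :=
    hS.eventually (gt_mem_nhds (by positivity))
  have hb : ∀ᶠ i in (U : Filter ι), c i ∈ Metric.closedBall (0 : Fin n → ℝ) (2 * K) := by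
    filter_upwards [hc, hS'] with i h1 h2
    rw [mem_closedBall_zero_iff]
    have h3 : f (c i) = ∑ a, c i a • X i a - ∑ a, c i a • (X i a - X₀ a) := by
      rw [hfa, ← Finset.sum_sub_distrib]
      refine Finset.sum_congr rfl fun a _ => ?_
      rw [smul_sub]
      abel
    have h4 : ‖∑ a, c i a • (X i a - X₀ a)‖ ≤ ‖c i‖ * ∑ a, ‖X i a - X₀ a‖ := by
      rw [Finset.mul_sum]
      refine (norm_sum_le _ _).trans (Finset.sum_le_sum fun a _ => ?_)
      rw [norm_smul]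
      exact mul_le_mul_of_nonneg_right (norm_le_pi_norm (c i) a) (norm_nonneg _)
    have h5 : ‖f (c i)‖ ≤ 1 + ‖c i‖ * (1 / (2 * K)) := by
      rw [h3]
      refine (norm_sub_le _ _).trans (add_le_add h1.le (h4.trans ?_))
      exact mul_le_mul_of_nonneg_left h2.le (norm_nonneg _)
    have h6 := hlow (c i)
    have h7 : K * ‖f (c i)‖ ≤ K * (1 + ‖c i‖ * (1 / (2 * K))) :=
      mul_le_mul_of_nonneg_left h5 hK'.le
    have h8 : (K : ℝ) * (1 + ‖c i‖ * (1 / (2 * K))) = K + ‖c i‖ / 2 := by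
      field_simp
    linarith
  obtain ⟨c₀, -, hc₀⟩ := (isCompact_closedBall (0 : Fin n → ℝ) (2 * K)).ultrafilter_le_nhds
    (U.map c) (by
      rw [le_principal_iff]
      exact hb)
  exact ⟨c₀, hc₀⟩

/-- the value as a function of the second fundamental form, normal and pair -/
private noncomputable def vl (W : Fin n → Fin n → EE N) (ν : EE N) (P Q : Fin n → ℝ) :
    ℝ × ℝ × ℝ :=
  (bil (kn W ν) P Q ^ 2, ip0 (kn W ν) (kn W ν), (inner ℝ (Hv W) ν : ℝ) ^ 2)

private lemma vl_cont : Continuous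
    (fun x : (Fin n → Fin n → EE N) × EE N × (Fin n → ℝ) × (Fin n → ℝ) =>
      vl x.1 x.2.1 x.2.2.1 x.2.2.2) := by
  have hW : ∀ i j, Continuous (fun x : (Fin n → Fin n → EE N) × EE N × (Fin n → ℝ) ×
      (Fin n → ℝ) => x.1 i j) := fun i j => by fun_prop
  have hk : ∀ i j, Continuous (fun x : (Fin n → Fin n → EE N) × EE N × (Fin n → ℝ) ×
      (Fin n → ℝ) => Helper35.HG.kn x.1 x.2.1 i j) := fun i j => by
    unfold Helper35.HG.kn
    exact (hW i j).inner (by fun_prop)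
  have hmt : Continuous (fun x : (Fin n → Fin n → EE N) × EE N × (Fin n → ℝ) ×
      (Fin n → ℝ) => Helper35.HC.mt (Helper35.HG.kn x.1 x.2.1)) := by
    unfold Helper35.HC.mt
    exact (continuous_finsetSum _ fun i _ => hk i i).div_const _
  have htl : ∀ i j, Continuous (fun x : (Fin n → Fin n → EE N) × EE N × (Fin n → ℝ) ×
      (Fin n → ℝ) => Helper35.HC.tl (Helper35.HG.kn x.1 x.2.1) i j) := fun i j => by
    unfold Helper35.HC.tl
    by_cases hij : i = j
    · simp only [hij, if_true]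
      exact (hk j j).sub hmt
    · simp only [hij, if_false, sub_zero]
      exact hk i j
  unfold vl
  refine Continuous.prodMk ?_ (Continuous.prodMk ?_ ?_)
  · unfold bil
    refine (continuous_finsetSum _ fun i _ => continuous_finsetSum _ fun j _ =>
      (hk i j).mul ?_).pow 2
    fun_prop
  · unfold ip0
    exact continuous_finsetSum _ fun i _ => continuous_finsetSum _ fun j _ =>
      (htl i j).mul (htl i j)
  · unfold Hv
    exact ((continuous_finsetSum _ fun i _ => hW i i).inner (by fun_prop)).pow 2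

/-- orthonormalisation of a frame depending on time -/
private lemma ortho (T : ℝ → (Fin n → ℝ) →ₗ[ℝ] EE N) (t₀ : ℝ)
    (hT : ∀ v : ℝ → Fin n → ℝ, ContinuousAt v t₀ → ContinuousAt (fun s => T s (v s)) t₀)
    (C : Fin n → Fin n → ℝ)
    (hC : ∀ i j, (inner ℝ (T t₀ (C i)) (T t₀ (C j)) : ℝ) = if i = j then 1 else 0) :
    ∀ k : ℕ, k ≤ n → ∃ D : ℝ → Fin n → Fin n → ℝ, (∀ i, ContinuousAt (fun s => D s i) t₀) ∧
      D t₀ = C ∧ ∀ᶠ s in 𝓝 t₀, ∀ i j : Fin n, i.val < k → j.val < k →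
        (inner ℝ (T s (D s i)) (T s (D s j)) : ℝ) = if i = j then 1 else 0 := by
  intro k
  induction k with
  | zero => intro _; exact ⟨fun _ => C, fun i => continuousAt_const, rfl,
      Eventually.of_forall fun s i j hi _ => absurd hi (Nat.not_lt_zero _)⟩
  | succ k ih =>
    intro hk
    obtain ⟨D, hDc, hD0, hDo⟩ := ih (by omega)
    obtain ⟨κ, hκ⟩ : ∃ κ : Fin n, κ.val = k := ⟨⟨k, by omega⟩, rfl⟩
    set S : Finset (Fin n) := Finset.univ.filter (fun j => j.val < k) with hS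
    have hSm : ∀ j, j ∈ S ↔ j.val < k := fun j => by
      rw [hS, Finset.mem_filter]
      exact ⟨fun h => h.2, fun h => ⟨Finset.mem_univ _, h⟩⟩
    set e : ℝ → Fin n → ℝ := fun s =>
      D s κ - ∑ j ∈ S, (inner ℝ (T s (D s j)) (T s (D s κ)) : ℝ) • D s j with he
    have hTD : ∀ i, ContinuousAt (fun s => T s (D s i)) t₀ := fun i => hT _ (hDc i)
    have hec : ContinuousAt e t₀ := by
      rw [he]
      have h1 : ContinuousAt (fun s => ∑ j ∈ S,
          (inner ℝ (T s (D s j)) (T s (D s κ)) : ℝ) • D s j) t₀ :=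
        tendsto_finsetSum _ fun j _ => ((hTD j).inner (𝕜 := ℝ) (hTD κ)).fun_smul (hDc j)
      exact (hDc κ).sub h1
    have he0 : e t₀ = C κ := by
      rw [he]
      simp only
      rw [hD0]
      rw [Finset.sum_eq_zero, sub_zero]
      intro j hj
      have hjk : j ≠ κ := by
        intro h
        rw [h] at hj
        have := (hSm κ).1 hj
        omega
      rw [hC, if_neg hjk, zero_smul]
    have hTe : ContinuousAt (fun s => T s (e s)) t₀ := hT _ hec
    have hTe0 : ‖T t₀ (e t₀)‖ = 1 := by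
      rw [he0]
      have h1 := hC κ κ
      rw [if_pos rfl, real_inner_self_eq_norm_sq] at h1
      nlinarith [norm_nonneg (T t₀ (C κ))]
    have hnc : ContinuousAt (fun s => ‖T s (e s)‖⁻¹) t₀ := by
      refine hTe.norm.inv₀ ?_
      rw [hTe0]
      exact one_ne_zero
    have hpos : ∀ᶠ s in 𝓝 t₀, 0 < ‖T s (e s)‖ :=
      hTe.norm.eventually (lt_mem_nhds (by
        show 0 < ‖T t₀ (e t₀)‖
        rw [hTe0]
        exact one_pos))
    refine ⟨fun s i => if i = κ then ‖T s (e s)‖⁻¹ • e s else D s i, ?_, ?_, ?_⟩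
    · intro i
      by_cases hi : i = κ
      · simp only [hi, if_true]
        exact hnc.smul hec
      · simp only [hi, if_false]
        exact hDc i
    · funext i
      by_cases hi : i = κ
      · simp only [hi, if_true]
        rw [hTe0, inv_one, one_smul, he0]
      · simp only [hi, if_false]
        rw [hD0]
    · filter_upwards [hDo, hpos] with s h1 h2
      have hort : ∀ i : Fin n, i.val < k → (inner ℝ (T s (D s i)) (T s (e s)) : ℝ) = 0 := by
        intro i hi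
        rw [he]
        simp only
        rw [map_sub, inner_sub_right, map_sum, inner_sum]
        rw [Finset.sum_eq_single i]
        · rw [map_smul, real_inner_smul_right, h1 i i hi hi, if_pos rfl, mul_one, sub_self]
        · intro j hj hji
          rw [map_smul, real_inner_smul_right, h1 i j hi ((hSm j).1 hj), if_neg (Ne.symm hji),
            mul_zero]
        · intro h
          exact absurd ((hSm i).2 hi) h
      have hee : (inner ℝ (T s (‖T s (e s)‖⁻¹ • e s)) (T s (‖T s (e s)‖⁻¹ • e s)) : ℝ) = 1 := by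
        rw [map_smul, real_inner_smul_left, real_inner_smul_right, real_inner_self_eq_norm_sq]
        field_simp
      have hie : ∀ i : Fin n, i.val < k →
          (inner ℝ (T s (D s i)) (T s (‖T s (e s)‖⁻¹ • e s)) : ℝ) = 0 := by
        intro i hi
        rw [map_smul, real_inner_smul_right, hort i hi, mul_zero]
      intro i j hi hj
      by_cases hiκ : i = κ
      · by_cases hjκ : j = κ
        · simp only [hiκ, hjκ, if_true]
          exact hee
        · have hjk : j.val < k := by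
            have : j.val ≠ k := fun h => hjκ (Fin.ext (h.trans hκ.symm))
            omega
          simp only [hiκ, hjκ, if_true, if_false]
          rw [if_neg (Ne.symm hjκ), real_inner_comm]
          exact hie j hjk
      · have hik : i.val < k := by
          have : i.val ≠ k := fun h => hiκ (Fin.ext (h.trans hκ.symm))
          omega
        by_cases hjκ : j = κ
        · simp only [hiκ, hjκ, if_true, if_false]
          exact hie i hik
        · have hjk : j.val < k := by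
            have : j.val ≠ k := fun h => hjκ (Fin.ext (h.trans hκ.symm))
            omega
          simp only [hiκ, hjκ, if_false]
          exact h1 i j hik hjk

/-- a vector orthogonal to an orthonormal frame in the range is orthogonal to the range -/
private lemma perp (T : (Fin n → ℝ) →ₗ[ℝ] EE N) (D : Fin n → Fin n → ℝ)
    (hD : ∀ i j, (inner ℝ (T (D i)) (T (D j)) : ℝ) = if i = j then 1 else 0) (ν : EE N)
    (hν : ∀ i, (inner ℝ ν (T (D i)) : ℝ) = 0) (c : Fin n → ℝ) : (inner ℝ ν (T c) : ℝ) = 0 := by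
  have hon : Orthonormal ℝ (fun i => T (D i)) := by
    rw [orthonormal_iff_ite]
    intro i j
    exact hD i j
  have hli : LinearIndependent ℝ D := by
    have h1 := hon.linearIndependent
    exact LinearIndependent.of_comp T h1
  have hsp : Submodule.span ℝ (range D) = ⊤ := by
    refine hli.span_eq_top_of_card_eq_finrank' ?_
    rw [Fintype.card_fin, Module.finrank_fin_fun]
  have hc : c ∈ Submodule.span ℝ (range D) := by
    rw [hsp]
    exact Submodule.mem_top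
  obtain ⟨a, ha⟩ := (Submodule.mem_span_range_iff_exists_fun ℝ).1 hc
  rw [← ha, map_sum, inner_sum]
  refine Finset.sum_eq_zero fun i _ => ?_
  rw [map_smul, real_inner_smul_right, hν, mul_zero]

/-- passage to the limit, abstract form -/
private lemma limit {ι : Type} (U : Ultrafilter ι) (X : ι → Fin n → EE N) (X₀ : Fin n → EE N)
    (Y : ι → Fin n → Fin n → EE N) (Y₀ : Fin n → Fin n → EE N) (G : ι → EE N) (G₀ : EE N)
    (hX : ∀ a, Tendsto (fun i => X i a) U (𝓝 (X₀ a)))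
    (hY : ∀ a b, Tendsto (fun i => Y i a b) U (𝓝 (Y₀ a b)))
    (hG : Tendsto G U (𝓝 G₀))
    (hLI : LinearIndependent ℝ X₀) (z : ι → ℝ × ℝ × ℝ) (C : ι → Fin n → Fin n → ℝ)
    (ν : ι → EE N) (P Q : ι → Fin n → ℝ)
    (h : ∀ᶠ i in (U : Filter ι),
      (∀ k l, (inner ℝ (∑ a, C i k a • X i a) (∑ a, C i l a • X i a) : ℝ)
        = if k = l then 1 else 0) ∧
      ‖ν i‖ = 1 ∧ (inner ℝ (ν i) (G i) : ℝ) = 0 ∧ (∀ a, (inner ℝ (ν i) (X i a) : ℝ) = 0) ∧
      OP (P i) (Q i) ∧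
      z i = vl (fun k l => ∑ a, ∑ b, (C i k a * C i l b) • Y i a b) (ν i) (P i) (Q i)) :
    ∃ (C₀ : Fin n → Fin n → ℝ) (ν₀ : EE N) (P₀ Q₀ : Fin n → ℝ),
      (∀ k l, (inner ℝ (∑ a, C₀ k a • X₀ a) (∑ a, C₀ l a • X₀ a) : ℝ)
        = if k = l then 1 else 0) ∧
      ‖ν₀‖ = 1 ∧ (inner ℝ ν₀ G₀ : ℝ) = 0 ∧ (∀ a, (inner ℝ ν₀ (X₀ a) : ℝ) = 0) ∧ OP P₀ Q₀ ∧
      Tendsto z U (𝓝 (vl (fun k l => ∑ a, ∑ b, (C₀ k a * C₀ l b) • Y₀ a b) ν₀ P₀ Q₀)) := by
  have hn1 : ∀ v : EE N, (inner ℝ v v : ℝ) = 1 → ‖v‖ = 1 := by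
    intro v hv
    rw [real_inner_self_eq_norm_sq] at hv
    nlinarith [norm_nonneg v]
  have hCk : ∀ k, ∃ c₀ : Fin n → ℝ, Tendsto (fun i => C i k) U (𝓝 c₀) := fun k =>
    coef U X X₀ hX hLI (fun i => C i k) (by
      filter_upwards [h] with p h1
      refine hn1 _ ?_
      have h2 := h1.1 k k
      rwa [if_pos rfl] at h2)
  choose C₀ hC₀ using hCk
  obtain ⟨ν₀, -, hν₀⟩ := (isCompact_closedBall (0 : EE N) 1).ultrafilter_le_nhds
    (U.map ν) (by
      rw [le_principal_iff]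
      change ∀ᶠ i in (U : Filter ι), ν i ∈ Metric.closedBall (0 : EE N) 1
      filter_upwards [h] with i hi
      rw [mem_closedBall_zero_iff]
      exact hi.2.1.le)
  have hball : ∀ p : Fin n → ℝ, ∑ i, p i ^ 2 = 1 → p ∈ Metric.closedBall (0 : Fin n → ℝ) 1 := by
    intro p hp
    rw [mem_closedBall_zero_iff, pi_norm_le_iff_of_nonneg zero_le_one]
    intro i
    have h1 : p i ^ 2 ≤ ∑ i, p i ^ 2 :=
      Finset.single_le_sum (f := fun i => p i ^ 2) (fun j _ => sq_nonneg _) (Finset.mem_univ i)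
    rw [hp] at h1
    rw [Real.norm_eq_abs]
    exact abs_le_one_iff_mul_self_le_one.2 (by nlinarith)
  obtain ⟨P₀, -, hP₀⟩ := (isCompact_closedBall (0 : Fin n → ℝ) 1).ultrafilter_le_nhds
    (U.map P) (by
      rw [le_principal_iff]
      change ∀ᶠ i in (U : Filter ι), P i ∈ Metric.closedBall (0 : Fin n → ℝ) 1
      filter_upwards [h] with i hi
      exact hball _ hi.2.2.2.2.1.1)
  obtain ⟨Q₀, -, hQ₀⟩ := (isCompact_closedBall (0 : Fin n → ℝ) 1).ultrafilter_le_nhds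
    (U.map Q) (by
      rw [le_principal_iff]
      change ∀ᶠ i in (U : Filter ι), Q i ∈ Metric.closedBall (0 : Fin n → ℝ) 1
      filter_upwards [h] with i hi
      exact hball _ hi.2.2.2.2.1.2.1)
  have hν : Tendsto ν U (𝓝 ν₀) := hν₀
  have hP : Tendsto P U (𝓝 P₀) := hP₀
  have hQ : Tendsto Q U (𝓝 Q₀) := hQ₀
  have hPa : ∀ a, Tendsto (fun i => P i a) U (𝓝 (P₀ a)) := fun a =>
    ((continuous_apply a).tendsto P₀).comp hP
  have hQa : ∀ a, Tendsto (fun i => Q i a) U (𝓝 (Q₀ a)) := fun a =>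
    ((continuous_apply a).tendsto Q₀).comp hQ
  have hCa : ∀ k a, Tendsto (fun i => C i k a) U (𝓝 (C₀ k a)) := fun k a =>
    ((continuous_apply a).tendsto (C₀ k)).comp (hC₀ k)
  have hV : ∀ k, Tendsto (fun i => ∑ a, C i k a • X i a) U (𝓝 (∑ a, C₀ k a • X₀ a)) :=
    fun k => tendsto_finsetSum _ fun a _ => (hCa k a).smul (hX a)
  have hW : Tendsto (fun i => fun k l => ∑ a, ∑ b, (C i k a * C i l b) • Y i a b) U
      (𝓝 (fun k l => ∑ a, ∑ b, (C₀ k a * C₀ l b) • Y₀ a b)) := by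
    rw [tendsto_pi_nhds]
    intro k
    rw [tendsto_pi_nhds]
    intro l
    exact tendsto_finsetSum _ fun a _ => tendsto_finsetSum _ fun b _ =>
      ((hCa k a).mul (hCa l b)).smul (hY a b)
  have hlim : ∀ (g : ι → ℝ) (r s : ℝ), Tendsto g U (𝓝 s) →
      (∀ᶠ p in (U : Filter ι), g p = r) → s = r := by
    intro g r s hg hr
    have h1 : Tendsto g U (𝓝 r) := tendsto_const_nhds.congr' (by
      filter_upwards [hr] with p hp
      exact hp.symm)
    exact tendsto_nhds_unique hg h1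
  refine ⟨C₀, ν₀, P₀, Q₀, ?_, hlim _ 1 _ hν.norm (h.mono fun p hp => hp.2.1),
    hlim _ 0 _ (hν.inner hG) (h.mono fun p hp => hp.2.2.1), ?_, ⟨?_, ?_, ?_⟩, ?_⟩
  · intro k l
    exact hlim _ _ _ ((hV k).inner (hV l)) (h.mono fun p hp => hp.1 k l)
  · intro a
    exact hlim _ 0 _ (hν.inner (hX a)) (h.mono fun p hp => hp.2.2.2.1 a)
  · exact hlim _ 1 _ (tendsto_finsetSum _ fun a _ => (hPa a).pow 2)
      (h.mono fun p hp => hp.2.2.2.2.1.1)
  · exact hlim _ 1 _ (tendsto_finsetSum _ fun a _ => (hQa a).pow 2)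
      (h.mono fun p hp => hp.2.2.2.2.1.2.1)
  · exact hlim _ 0 _ (tendsto_finsetSum _ fun a _ => (hPa a).mul (hQa a))
      (h.mono fun p hp => hp.2.2.2.2.1.2.2)
  · have h1 := (vl_cont (n := n) (N := N)).tendsto
      ((fun k l => ∑ a, ∑ b, (C₀ k a * C₀ l b) • Y₀ a b), ν₀, P₀, Q₀)
    have h2 := h1.comp (hW.prodMk_nhds (hν.prodMk_nhds (hP.prodMk_nhds hQ)))
    exact h2.congr' (h.mono fun p hp => hp.2.2.2.2.2.symm)

end Abs

section Man

variable {n N : ℕ} {M : Type} [TopologicalSpace M] [ChartedSpace (EE n) M]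
  [IsManifold (𝓡 n) ∞ M]

/-- continuity of the frame and of the second fundamental form in the chart at `x₀` -/
private lemma cont (hI2J : StI2J) (hSM : Helper35.PI.StSM) {J : Set ℝ} {F : M → ℝ → EE N}
    (hF : IsImmJ (n := n) J F) (x₀ : M) {t₀ : ℝ} (ht₀ : t₀ ∈ J) :
    (∀ a, ContinuousAt (fun z : EE n × ℝ => dv1 (loc (n := n) F x₀ z.2) z.1 a)
      (chartAt (EE n) x₀ x₀, t₀)) ∧
    ∀ a b, ContinuousAt (fun z : EE n × ℝ => sff (loc (n := n) F x₀ z.2) z.1 a b)
      (chartAt (EE n) x₀ x₀, t₀) := by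
  have hs : ContDiffAt ℝ ∞ (fun z : EE n × ℝ => F ((chartAt (EE n) x₀).symm z.1) z.2)
      (chartAt (EE n) x₀ x₀, t₀) :=
    (hI2J n N M J F hF x₀).contDiffAt
      (((chartAt (EE n) x₀).open_target.prod hF.op).mem_nhds
        ⟨(chartAt (EE n) x₀).map_source (mem_chart_source (EE n) x₀), ht₀⟩)
  obtain ⟨h1, h2, -, -, -, -, h3, -⟩ := hSM n N _ _ hs (hF.imm x₀ t₀ ht₀)
  refine ⟨fun a => ?_, fun a b => (h3 a b).continuousAt⟩
  refine (h2 a).continuousAt.congr ?_
  filter_upwards [h1] with z hz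
  exact (hz.2.2.1 a).symm

/-- coordinates in the chart at `x₀` -/
private lemma coords (hI2J : StI2J) (hNR : StNR) {J : Set ℝ} {F : M → ℝ → EE N}
    (hF : IsImmJ (n := n) J F) (x₀ q : M) {t : ℝ} (ht : t ∈ J)
    (hq : q ∈ (chartAt (EE n) x₀).source) :
    ∃ A : Matrix (Fin n) (Fin n) ℝ,
      (∀ c, tv F q t c
        = ∑ a, Matrix.vecMul c A a • dv1 (loc (n := n) F x₀ t) (chartAt (EE n) x₀ q) a) ∧
      ∀ c d, Ab F q t c d = ∑ a, ∑ b, (Matrix.vecMul c A a * Matrix.vecMul d A b) •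
        sff (loc (n := n) F x₀ t) (chartAt (EE n) x₀ q) a b := by
  obtain ⟨h1, h2, h3⟩ := Helper33.HSF.trans x₀ q hq
  have hf : ContDiffAt ℝ ∞ (loc (n := n) F x₀ t)
      ((fun y => chartAt (EE n) x₀ ((chartAt (EE n) q).symm y)) (chartAt (EE n) q q)) := by
    simp only [h2]
    exact Helper33.HSF.locSmooth hI2J hF ht x₀ _ ((chartAt (EE n) x₀).map_source hq)
  obtain ⟨A, -, -, hA1, hA2, -⟩ := Helper33.HSF.rp hNR (loc (n := n) F x₀ t)
    (loc (n := n) F q t)
    (fun y => chartAt (EE n) x₀ ((chartAt (EE n) q).symm y)) (chartAt (EE n) q q)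
    (hf.of_le Helper33.HSF.two_le_top) (h1.of_le Helper33.HSF.two_le_top)
    (h3 fun m => F m t) (hF.imm q t ht)
  simp only [h2] at hA1 hA2
  exact ⟨A, fun c => Helper33.HSF.sum1 A c _ _ hA1, fun c d => sum2b A c d _ _ hA2⟩

/-- the position is orthogonal to the tangent space -/
private lemma posPerp (hI2J : StI2J) {J : Set ℝ} {F : M → ℝ → EE N} (hF : SFN n J F) (q : M)
    {t : ℝ} (ht : t ∈ J) (a : Fin n) :
    (inner ℝ (dv1 (loc (n := n) F q t) (chartAt (EE n) q q) a) (F q t) : ℝ) = 0 := by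
  have hm := (chartAt (EE n) q).map_source (mem_chart_source (EE n) q)
  have hs := Helper33.HSF.locSmooth hI2J hF.mcf.toIsImmJ ht q _ hm
  have hd : DifferentiableAt ℝ (loc (n := n) F q t) (chartAt (EE n) q q) :=
    hs.differentiableAt (by simp)
  have hv : loc (n := n) F q t (chartAt (EE n) q q) = F q t := by
    unfold loc
    rw [(chartAt (EE n) q).left_inv (mem_chart_source (EE n) q)]
  have h1 : HasFDerivAt (fun y => (inner ℝ (loc (n := n) F q t y) (loc (n := n) F q t y) : ℝ))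
      ((fderivInnerCLM ℝ (loc (n := n) F q t (chartAt (EE n) q q),
        loc (n := n) F q t (chartAt (EE n) q q))).comp
        ((fderiv ℝ (loc (n := n) F q t) (chartAt (EE n) q q)).prod
          (fderiv ℝ (loc (n := n) F q t) (chartAt (EE n) q q)))) (chartAt (EE n) q q) :=
    hd.hasFDerivAt.inner ℝ hd.hasFDerivAt
  have h2 : HasFDerivAt (fun y => (inner ℝ (loc (n := n) F q t y) (loc (n := n) F q t y) : ℝ))
      (0 : EE n →L[ℝ] ℝ) (chartAt (EE n) q q) := by
    refine (hasFDerivAt_const (rr n t) _).congr_of_eventuallyEq ?_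
    refine Eventually.of_forall fun y => ?_
    change (inner ℝ (F ((chartAt (EE n) q).symm y) t) (F ((chartAt (EE n) q).symm y) t) : ℝ) = _
    rw [real_inner_self_eq_norm_sq]
    exact hF.sph _ t ht
  have h3 := congrArg (fun L => L (ee a)) (h1.unique h2)
  simp only [ContinuousLinearMap.comp_apply, ContinuousLinearMap.prod_apply,
    fderivInnerCLM_apply, zero_apply, hv] at h3
  have h4 : (inner ℝ (F q t) (fderiv ℝ (loc (n := n) F q t) (chartAt (EE n) q q) (ee a)) : ℝ)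
      = inner ℝ (fderiv ℝ (loc (n := n) F q t) (chartAt (EE n) q q) (ee a)) (F q t) :=
    real_inner_comm _ _
  unfold dv1
  linarith

private lemma cpt [CompactSpace M] (hI2J : StI2J) (hI3J : StI3J) (hI4J : StI4J)
    (hSM : Helper35.PI.StSM) (hNR : StNR)
    {J : Set ℝ} {F : M → ℝ → EE N} (hF : IsImmJ (n := n) J F) (t₁ t₂ : ℝ) (hJ : Icc t₁ t₂ ⊆ J) :
    IsCompact {p : (M × ℝ) × (ℝ × ℝ × ℝ) | p.1.2 ∈ Icc t₁ t₂ ∧ p.2 ∈ PNN n F p.1.1 p.1.2} := by
  rw [isCompact_iff_ultrafilter_le_nhds]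
  intro U hU
  rw [le_principal_iff] at hU
  have hUS : ∀ᶠ p : (M × ℝ) × (ℝ × ℝ × ℝ) in (U : Filter ((M × ℝ) × (ℝ × ℝ × ℝ))),
      p.1.2 ∈ Icc t₁ t₂ ∧ p.2 ∈ PNN n F p.1.1 p.1.2 := hU
  obtain ⟨x₀, -, hx₀⟩ := isCompact_univ.ultrafilter_le_nhds
    (U.map (fun p : (M × ℝ) × (ℝ × ℝ × ℝ) => p.1.1)) (by simp)
  obtain ⟨t₀, ht₀, hct₀⟩ := (isCompact_Icc (a := t₁) (b := t₂)).ultrafilter_le_nhds
    (U.map (fun p : (M × ℝ) × (ℝ × ℝ × ℝ) => p.1.2)) (by
      rw [le_principal_iff]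
      change ∀ᶠ p in (U : Filter ((M × ℝ) × (ℝ × ℝ × ℝ))), p.1.2 ∈ Icc t₁ t₂
      filter_upwards [hUS] with p hp
      exact hp.1)
  have hX : Tendsto (fun p : (M × ℝ) × (ℝ × ℝ × ℝ) => p.1.1) U (𝓝 x₀) := hx₀
  have hT : Tendsto (fun p : (M × ℝ) × (ℝ × ℝ × ℝ) => p.1.2) U (𝓝 t₀) := hct₀
  have htJ : t₀ ∈ J := hJ ht₀
  have hxs := mem_chart_source (EE n) x₀
  have hyT : Tendsto (fun p : (M × ℝ) × (ℝ × ℝ × ℝ) =>
      ((chartAt (EE n) x₀ p.1.1, p.1.2) : EE n × ℝ)) U (𝓝 (chartAt (EE n) x₀ x₀, t₀)) :=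
    (((chartAt (EE n) x₀).continuousAt hxs).tendsto.comp hX).prodMk_nhds hT
  have hsrc : ∀ᶠ p in (U : Filter ((M × ℝ) × (ℝ × ℝ × ℝ))),
      p.1.1 ∈ (chartAt (EE n) x₀).source :=
    hX.eventually ((chartAt (EE n) x₀).open_source.mem_nhds hxs)
  obtain ⟨hc1, hc2⟩ := cont hI2J hSM hF x₀ htJ
  have hGT : Tendsto (fun p : (M × ℝ) × (ℝ × ℝ × ℝ) => F p.1.1 p.1.2) U (𝓝 (F x₀ t₀)) := by
    have h1 : ContinuousOn (fun z : M × ℝ => F z.1 z.2) (univ ×ˢ J) :=
      (hI4J n N M J F hF).1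
    have h2 : ContinuousAt (fun z : M × ℝ => F z.1 z.2) (x₀, t₀) :=
      h1.continuousAt ((isOpen_univ.prod hF.op).mem_nhds ⟨mem_univ _, htJ⟩)
    exact Tendsto.comp (g := fun z : M × ℝ => F z.1 z.2) h2 (hX.prodMk_nhds hT)
  -- the frames
  obtain ⟨X, hXd⟩ : ∃ X : (M × ℝ) × (ℝ × ℝ × ℝ) → Fin n → EE N, ∀ p a,
      X p a = dv1 (loc (n := n) F x₀ p.1.2) (chartAt (EE n) x₀ p.1.1) a := ⟨_, fun _ _ => rfl⟩
  obtain ⟨Y, hYd⟩ : ∃ Y : (M × ℝ) × (ℝ × ℝ × ℝ) → Fin n → Fin n → EE N, ∀ p a b,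
      Y p a b = sff (loc (n := n) F x₀ p.1.2) (chartAt (EE n) x₀ p.1.1) a b :=
    ⟨_, fun _ _ _ => rfl⟩
  obtain ⟨X₀, hX₀⟩ : ∃ X₀ : Fin n → EE N,
      X₀ = fun a => dv1 (loc (n := n) F x₀ t₀) (chartAt (EE n) x₀ x₀) a := ⟨_, rfl⟩
  obtain ⟨Y₀, hY₀⟩ : ∃ Y₀ : Fin n → Fin n → EE N,
      Y₀ = fun a b => sff (loc (n := n) F x₀ t₀) (chartAt (EE n) x₀ x₀) a b := ⟨_, rfl⟩
  have hXa : ∀ a, Tendsto (fun p => X p a) U (𝓝 (X₀ a)) := by
    intro a
    have h1 := Tendsto.comp (g := fun z : EE n × ℝ => dv1 (loc (n := n) F x₀ z.2) z.1 a)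
      (f := fun p : (M × ℝ) × (ℝ × ℝ × ℝ) => ((chartAt (EE n) x₀ p.1.1, p.1.2) : EE n × ℝ))
      (hc1 a) hyT
    rw [hX₀]
    refine h1.congr fun p => ?_
    rw [hXd]
    rfl
  have hYa : ∀ a b, Tendsto (fun p => Y p a b) U (𝓝 (Y₀ a b)) := by
    intro a b
    have h1 := Tendsto.comp (g := fun z : EE n × ℝ => sff (loc (n := n) F x₀ z.2) z.1 a b)
      (f := fun p : (M × ℝ) × (ℝ × ℝ × ℝ) => ((chartAt (EE n) x₀ p.1.1, p.1.2) : EE n × ℝ))
      (hc2 a b) hyT
    rw [hY₀]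
    refine h1.congr fun p => ?_
    rw [hYd]
    rfl
  have hLI : LinearIndependent ℝ X₀ := by
    rw [hX₀]
    exact hF.imm x₀ t₀ htJ
  -- coordinates
  have hex : ∀ p : (M × ℝ) × (ℝ × ℝ × ℝ), ∃ D : (Fin n → Fin n → ℝ) × EE N × (Fin n → ℝ) ×
      (Fin n → ℝ), (p.1.2 ∈ Icc t₁ t₂ ∧ p.2 ∈ PNN n F p.1.1 p.1.2) →
      p.1.1 ∈ (chartAt (EE n) x₀).source →
      (∀ k l, (inner ℝ (∑ a, D.1 k a • X p a) (∑ a, D.1 l a • X p a) : ℝ)
        = if k = l then 1 else 0) ∧
      ‖D.2.1‖ = 1 ∧ (inner ℝ D.2.1 (F p.1.1 p.1.2) : ℝ) = 0 ∧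
      (∀ a, (inner ℝ D.2.1 (X p a) : ℝ) = 0) ∧ OP D.2.2.1 D.2.2.2 ∧
      p.2 = vl (fun k l => ∑ a, ∑ b, (D.1 k a * D.1 l b) • Y p a b) D.2.1 D.2.2.1 D.2.2.2 := by
    intro p
    by_cases hp : (p.1.2 ∈ Icc t₁ t₂ ∧ p.2 ∈ PNN n F p.1.1 p.1.2) ∧
        p.1.1 ∈ (chartAt (EE n) x₀).source
    · obtain ⟨⟨hp1, C, ν, hN, P, Q, hPQ, hz⟩, hps⟩ := hp
      obtain ⟨A, h1, h2⟩ := coords hI2J hNR hF x₀ p.1.1 (hJ hp1) hps
      refine ⟨(fun k => Matrix.vecMul (C k) A, ν, P, Q), fun _ _ => ⟨?_, hN.n1, hN.nF, ?_, hPQ,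
        ?_⟩⟩
      · intro k l
        have h3 := hN.on k l
        unfold gb at h3
        rw [h1, h1] at h3
        simp only [hXd]
        exact h3
      · intro a
        rw [hXd]
        have h4 := (hI3J n N M J F hF x₀ p.1.1 p.1.2 (hJ hp1) hps).2.2.2.2
        have h5 : dv1 (loc (n := n) F x₀ p.1.2) (chartAt (EE n) x₀ p.1.1) a
            ∈ TS (n := n) F p.1.1 p.1.2 := by
          rw [h4]
          exact Submodule.subset_span ⟨a, rfl⟩
        unfold TS at h5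
        obtain ⟨c, hc⟩ := (Submodule.mem_span_range_iff_exists_fun ℝ).1 h5
        have h6 := hN.nT c
        unfold tv at h6
        rw [hc] at h6
        exact h6
      · rw [hz]
        have h7 : AC F p.1.1 p.1.2 C = fun k l => ∑ a, ∑ b,
            (Matrix.vecMul (C k) A a * Matrix.vecMul (C l) A b) • Y p a b := by
          funext k l
          unfold AC
          rw [h2]
          simp only [hYd]
        rw [h7]
        rfl
    · exact ⟨(0, 0, 0, 0), fun h1 h2 => (hp ⟨h1, h2⟩).elim⟩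
  choose D hD using hex
  obtain ⟨C₀, ν₀, P₀, Q₀, k1, k2, k3, k4, k5, k6⟩ := limit U X X₀ Y Y₀
    (fun p => F p.1.1 p.1.2) (F x₀ t₀) hXa hYa hGT hLI (fun p => p.2)
    (fun p => (D p).1) (fun p => (D p).2.1) (fun p => (D p).2.2.1) (fun p => (D p).2.2.2) (by
      filter_upwards [hUS, hsrc] with p h1 h2
      exact hD p h1 h2)
  refine ⟨((x₀, t₀), vl (fun k l => ∑ a, ∑ b, (C₀ k a * C₀ l b) • Y₀ a b) ν₀ P₀ Q₀),
    ⟨ht₀, C₀, ν₀, ⟨?_, k2, k3, ?_⟩, P₀, Q₀, k5, ?_⟩, (hX.prodMk_nhds hT).prodMk_nhds k6⟩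
  · intro i j
    rw [hX₀] at k1
    exact k1 i j
  · intro c
    have h1 : tv F x₀ t₀ c = ∑ a, c a • X₀ a := by
      rw [hX₀]
      rfl
    rw [h1, inner_sum]
    refine Finset.sum_eq_zero fun a _ => ?_
    rw [real_inner_smul_right, k4, mul_zero]
  · rw [hY₀]
    rfl

end Man

theorem hCPN (hI2J : StI2J) (hI3J : StI3J) (hI4J : StI4J) (hSM : Helper35.PI.StSM)
    (hNR : StNR) : StCPN := by
  intro n N M _ _ _ _ _ J F hS
  have hF : IsImmJ (n := n) J F := hS.mcf.toIsImmJ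
  refine ⟨fun t₁ t₂ hJ => cpt hI2J hI3J hI4J hSM hNR hF t₁ t₂ hJ, ?_⟩
  intro q t₀ ht₀ z hz
  obtain ⟨C, ν, hN, P, Q, hPQ, hzz⟩ := hz
  obtain ⟨hc1, hc2⟩ := cont hI2J hSM hF q ht₀
  have hpt : ContinuousAt (fun s : ℝ => ((chartAt (EE n) q q, s) : EE n × ℝ)) t₀ := by
    fun_prop
  have hXa : ∀ a, ContinuousAt (fun s : ℝ => dv1 (loc (n := n) F q s) (chartAt (EE n) q q) a)
      t₀ := fun a => ContinuousAt.comp (f := fun s : ℝ => ((chartAt (EE n) q q, s) : EE n × ℝ))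
        (g := fun z : EE n × ℝ => dv1 (loc (n := n) F q z.2) z.1 a) (hc1 a) hpt
  have hSa : ∀ a b, ContinuousAt
      (fun s : ℝ => sff (loc (n := n) F q s) (chartAt (EE n) q q) a b) t₀ := fun a b =>
    ContinuousAt.comp (f := fun s : ℝ => ((chartAt (EE n) q q, s) : EE n × ℝ))
        (g := fun z : EE n × ℝ => sff (loc (n := n) F q z.2) z.1 a b) (hc2 a b) hpt
  obtain ⟨T, hTd⟩ : ∃ T : ℝ → (Fin n → ℝ) →ₗ[ℝ] EE N, ∀ s c, T s c = tv F q s c :=
    ⟨fun s => Fintype.linearCombination ℝ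
      (fun i => dv1 (loc (n := n) F q s) (chartAt (EE n) q q) i), fun s c => by
        rw [Fintype.linearCombination_apply]
        rfl⟩
  have htv : ∀ v : ℝ → Fin n → ℝ, ContinuousAt v t₀ →
      ContinuousAt (fun s => T s (v s)) t₀ := by
    intro v hv
    simp only [hTd]
    exact tendsto_finsetSum _ fun a _ =>
      (((continuous_apply a).continuousAt.comp hv : ContinuousAt (fun s => v s a) t₀)).fun_smul
        (hXa a)
  have hAb : ∀ v w : ℝ → Fin n → ℝ, ContinuousAt v t₀ → ContinuousAt w t₀ →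
      ContinuousAt (fun s => Ab F q s (v s) (w s)) t₀ := by
    intro v w hv hw
    exact tendsto_finsetSum _ fun a _ => tendsto_finsetSum _ fun b _ =>
      ((((continuous_apply a).continuousAt.comp hv : ContinuousAt (fun s => v s a) t₀)).mul
        (((continuous_apply b).continuousAt.comp hw : ContinuousAt (fun s => w s b) t₀))).fun_smul
        (hSa a b)
  have hFc : ContinuousAt (fun s => F q s) t₀ := (hS.mcf.flow q t₀ ht₀).continuousAt
  obtain ⟨D, hDc, hD0, hDo⟩ := ortho T t₀ htv C (fun i j => by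
    rw [hTd, hTd]
    exact hN.on i j) n le_rfl
  have hJn : ∀ᶠ s in 𝓝 t₀, s ∈ J := hF.op.mem_nhds ht₀
  -- the normal
  obtain ⟨μ, hμ⟩ : ∃ μ : ℝ → EE N, ∀ s, μ s = ν
      - ∑ i, (inner ℝ (T s (D s i)) ν : ℝ) • T s (D s i)
      - ((inner ℝ (F q s) ν : ℝ) / rr n s) • F q s := ⟨_, fun _ => rfl⟩
  have hVc : ∀ i, ContinuousAt (fun s => T s (D s i)) t₀ := fun i => htv _ (hDc i)
  have hrc : ContinuousAt (fun s => rr n s) t₀ := by
    unfold rr
    fun_prop
  have hμc : ContinuousAt μ t₀ := by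
    have h1 : μ = fun s => ν - ∑ i, (inner ℝ (T s (D s i)) ν : ℝ) • T s (D s i)
      - ((inner ℝ (F q s) ν : ℝ) / rr n s) • F q s := funext hμ
    rw [h1]
    have h2 : ContinuousAt (fun s => ∑ i, (inner ℝ (T s (D s i)) ν : ℝ) • T s (D s i)) t₀ :=
      tendsto_finsetSum _ fun i _ =>
        ((hVc i).inner (𝕜 := ℝ) (continuousAt_const (y := ν))).fun_smul (hVc i)
    have h3 : ContinuousAt (fun s => (inner ℝ (F q s) ν : ℝ)) t₀ :=
      hFc.inner (𝕜 := ℝ) continuousAt_const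
    have h4 : ContinuousAt (fun s => ((inner ℝ (F q s) ν : ℝ) / rr n s) • F q s) t₀ :=
      (h3.div hrc (hS.r0 t₀ ht₀).ne').fun_smul hFc
    exact (continuousAt_const.sub h2).sub h4
  have hμ0 : μ t₀ = ν := by
    rw [hμ]
    have h1 : (inner ℝ (F q t₀) ν : ℝ) = 0 := by
      rw [real_inner_comm]
      exact hN.nF
    rw [h1, zero_div, zero_smul, sub_zero, Finset.sum_eq_zero, sub_zero]
    intro i _
    have h2 : (inner ℝ (T t₀ (D t₀ i)) ν : ℝ) = 0 := by
      rw [real_inner_comm, hTd]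
      exact hN.nT _
    rw [h2, zero_smul]
  have hμp : ∀ᶠ s in 𝓝 t₀, 0 < ‖μ s‖ :=
    hμc.norm.eventually (lt_mem_nhds (by
      show 0 < ‖μ t₀‖
      rw [hμ0, hN.n1]
      exact one_pos))
  have hνc : ContinuousAt (fun s => ‖μ s‖⁻¹ • μ s) t₀ := by
    refine ContinuousAt.fun_smul (hμc.norm.inv₀ ?_) hμc
    rw [hμ0, hN.n1]
    exact one_ne_zero
  have hν0 : ‖μ t₀‖⁻¹ • μ t₀ = ν := by rw [hμ0, hN.n1, inv_one, one_smul]
  refine ⟨fun s => vl (AC F q s (D s)) (‖μ s‖⁻¹ • μ s) P Q, ?_, ?_, ?_⟩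
  · have hAC : ContinuousAt (fun s => AC F q s (D s)) t₀ := by
      refine tendsto_pi_nhds.2 fun i => tendsto_pi_nhds.2 fun j => ?_
      exact hAb _ _ (hDc i) (hDc j)
    have h1 := (vl_cont (n := n) (N := N)).continuousAt
      (x := (AC F q t₀ (D t₀), ‖μ t₀‖⁻¹ • μ t₀, P, Q))
    exact ContinuousAt.comp (f := fun s => (AC F q s (D s), ‖μ s‖⁻¹ • μ s, P, Q))
      (g := fun x : (Fin n → Fin n → EE N) × EE N × (Fin n → ℝ) × (Fin n → ℝ) =>
        vl x.1 x.2.1 x.2.2.1 x.2.2.2) h1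
      (hAC.prodMk (hνc.prodMk (continuousAt_const.prodMk continuousAt_const)))
  · simp only
    rw [hν0, hD0, hzz]
    rfl
  · filter_upwards [hDo, hJn, hμp] with s h1 h2 h3
    have hon : ∀ i j, (inner ℝ (T s (D s i)) (T s (D s j)) : ℝ) = if i = j then 1 else 0 :=
      fun i j => h1 i j i.isLt j.isLt
    have hTF : ∀ c, (inner ℝ (T s c) (F q s) : ℝ) = 0 := by
      intro c
      rw [hTd]
      unfold tv
      rw [sum_inner]
      refine Finset.sum_eq_zero fun a _ => ?_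
      rw [real_inner_smul_left, posPerp hI2J hS q h2 a, mul_zero]
    have hμV : ∀ j, (inner ℝ (μ s) (T s (D s j)) : ℝ) = 0 := by
      intro j
      rw [hμ, inner_sub_left, inner_sub_left, sum_inner, real_inner_smul_left,
        real_inner_comm (T s (D s j)) (F q s), hTF, mul_zero, sub_zero,
        Finset.sum_eq_single j]
      · rw [real_inner_smul_left, hon, if_pos rfl, mul_one, real_inner_comm, sub_self]
      · intro i _ hij
        rw [real_inner_smul_left, hon, if_neg hij, mul_zero]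
      · intro h
        exact absurd (Finset.mem_univ j) h
    have hμF : (inner ℝ (μ s) (F q s) : ℝ) = 0 := by
      rw [hμ, inner_sub_left, inner_sub_left, sum_inner, real_inner_smul_left,
        real_inner_self_eq_norm_sq, hS.sph q s h2, Finset.sum_eq_zero]
      · rw [sub_zero, div_mul_cancel₀ _ (hS.r0 s h2).ne', real_inner_comm, sub_self]
      · intro i _
        rw [real_inner_smul_left, hTF, mul_zero]
    refine ⟨D s, ‖μ s‖⁻¹ • μ s, ⟨?_, ?_, ?_, ?_⟩, P, Q, hPQ, rfl⟩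
    · intro i j
      unfold gb
      rw [← hTd, ← hTd]
      exact hon i j
    · rw [norm_smul, norm_inv, norm_norm, inv_mul_cancel₀ h3.ne']
    · rw [real_inner_smul_left, hμF, mul_zero]
    · intro c
      rw [← hTd]
      refine perp (T s) (D s) hon _ ?_ c
      intro i
      rw [real_inner_smul_left, hμV, mul_zero]

end Helper27.HG
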